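import Pool.Agent.X214.AM.Main

/-!
# Adapted metrics for sectionally volume-expanding partially hyperbolic sets

`M` is a smooth manifold (without boundary, Hausdorff, σ-compact) modelled on the finite dimensional
space `E`, with a smooth Riemannian metric `g`; `f` is a `C^1` diffeomorphism, `Λ` a compact
invariant set with a partially hyperbolic splitting `G ⊕ F` whose bundle `G` is uniformly contracted
(`PartHyp`), and all `k`-dimensional volumes in `F` are expanded at the rate `C * exp (a * n)`
(`VolExp`). Then for every `b < a` there is a smooth Riemannian metric on `M` in which they are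
expanded at the rate `exp (b * n)`, with constant one.
-/

set_option autoImplicit false

open scoped Manifold ContDiff Topology

namespace Pool.Agent.Results.MP_3d2465_an.AdaptedMetrics

open Pool.Agent.X214.AM

theorem result {E : Type} [NormedAddCommGroup E] [NormedSpace ℝ E] [FiniteDimensional ℝ E]
    {M : Type} [TopologicalSpace M] [T2Space M] [SigmaCompactSpace M] [ChartedSpace E M]
    [IsManifold 𝓘(ℝ, E) ∞ M] (g : RMetric E M)
    (f : M ≃ₘ^1⟮𝓘(ℝ, E), 𝓘(ℝ, E)⟯ M) (Λ : Set M) (hΛ : IsCompact Λ) (hinv : f '' Λ = Λ)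
    (G F : ∀ x : M, Submodule ℝ (TangentSpace 𝓘(ℝ, E) x)) (hGF : PartHyp g f Λ G F)
    (k : ℕ) (C a : ℝ) (hC : 0 < C) (ha : 0 < a) (hvol : VolExp g f Λ F k C a) :
    ∀ b < a, ∃ g' : RMetric E M, VolExp g' f Λ F k 1 b := by
  intro b hb
  obtain ⟨r, hr⟩ := hGF.subF
  exact adapted f.contMDiff
    (fun x => (f.mfderivToContinuousLinearEquiv one_ne_zero x).injective) hΛ
    (fun x hx => hinv ▸ Set.mem_image_of_mem f hx) hGF.invF hr g k hC hb hvol

end Pool.Agent.Results.MP_3d2465_an.AdaptedMetrics
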